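import Pool.Agent.K3h5.FF.Stm

/-! The expected number of occurrences converges (brick ETL). -/

set_option autoImplicit false
set_option linter.all false

open scoped Classical
open MeasureTheory Filter Topology ProbabilityTheory Set

namespace Pool.Agent.K3h73.FF

open Pool.Agent.K3h5.FF

theorem floor_lt {a b : ℝ} (h : a < b) :
    ∀ᶠ n : ℕ in atTop, ⌊(n : ℝ) * a⌋ < ⌊(n : ℝ) * b⌋ := by
  obtain ⟨N, hN⟩ := exists_nat_ge (1 / (b - a))
  filter_upwards [eventually_ge_atTop N] with n hn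
  have h1 : (1 : ℝ) / (b - a) ≤ n := hN.trans (by exact_mod_cast hn)
  have h2 : 0 < b - a := by linarith
  rw [div_le_iff₀ h2] at h1
  have h3 : (n : ℝ) * a + 1 ≤ n * b := by nlinarith
  have h4 := Int.floor_le_floor h3
  rw [Int.floor_add_one] at h4
  omega

theorem floor_gt {a : ℝ} (h : 0 < a) (S : ℕ) :
    ∀ᶠ n : ℕ in atTop, (2 * S : ℤ) < ⌊(n : ℝ) * a⌋ := by
  obtain ⟨N, hN⟩ := exists_nat_ge ((2 * S + 1) / a)
  filter_upwards [eventually_ge_atTop N] with n hn
  have h1 : ((2 : ℝ) * S + 1) / a ≤ n := hN.trans (by exact_mod_cast hn)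
  rw [div_le_iff₀ h] at h1
  have h2 : ((2 * S + 1 : ℤ) : ℝ) ≤ (n : ℝ) * a := by push_cast; exact h1
  have h3 := Int.le_floor.2 h2
  omega

theorem pr_nonneg {n : ℕ} {P : Equiv.Perm (Fin n) → ℝ} (h : ∀ π, 0 ≤ P π)
    (A : Set (Equiv.Perm (Fin n))) : 0 ≤ pr P A := by
  unfold pr
  refine Finset.sum_nonneg fun π _ => ?_
  split_ifs
  · exact h π
  · exact le_rfl

theorem occ_empty {n S l : ℕ} (π : Equiv.Perm (Fin n)) (u : Fin l → Label) (h : ¬ FrontInj u) :
    occ (LabT S π) u = ∅ := by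
  rw [Set.eq_empty_iff_forall_notMem]
  rintro z ⟨h1, h2⟩
  apply h
  intro i i' j hi hi'
  have h3 := (h2 i).1
  have h4 := (h2 i').1
  rw [hi] at h3
  rw [hi'] at h4
  obtain ⟨q, h5, h6⟩ := h3
  obtain ⟨q', h7, h8⟩ := h4
  have h9 : q = q' := Fin.ext (h5.trans h7.symm)
  subst h9
  exact h1.injective (h6.symm.trans h8)

theorem desc_bound {n l : ℕ} (h : 2 * l ≤ n) :
    (n : ℝ) ^ l ≤ 2 ^ l * (n.descFactorial l : ℝ) := by
  have h1 := Nat.pow_sub_le_descFactorial n l
  have h2 : n ≤ 2 * (n + 1 - l) := by omega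
  have h3 : n ^ l ≤ 2 ^ l * n.descFactorial l := by
    calc n ^ l ≤ (2 * (n + 1 - l)) ^ l := Nat.pow_le_pow_left h2 l
      _ = 2 ^ l * (n + 1 - l) ^ l := mul_pow _ _ _
      _ ≤ _ := Nat.mul_le_mul_left _ h1
  exact_mod_cast h3

theorem ae_inj (l : ℕ) : ∀ᵐ x : Fin l → ℝ, ∀ i j : Fin l, i ≠ j → x i ≠ x j := by
  rw [ae_all_iff]
  intro i
  rw [ae_all_iff]
  intro j
  by_cases hij : i = j
  · exact Eventually.of_forall fun x h => absurd hij h
  · let T : Submodule ℝ (Fin l → ℝ) :=
      LinearMap.ker ((LinearMap.proj i : (Fin l → ℝ) →ₗ[ℝ] ℝ) - LinearMap.proj j)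
    have hT : T ≠ ⊤ := by
      intro h
      have h1 : (Pi.single i 1 : Fin l → ℝ) ∈ T := by rw [h]; trivial
      rw [LinearMap.mem_ker, LinearMap.sub_apply, LinearMap.proj_apply, LinearMap.proj_apply,
        Pi.single_eq_same, Pi.single_eq_of_ne (Ne.symm hij)] at h1
      norm_num at h1
    have h2 : volume (T : Set (Fin l → ℝ)) = 0 := Measure.addHaar_submodule volume T hT
    rw [ae_iff]
    refine measure_mono_null ?_ h2
    intro x hx
    have h3 : x i = x j := by
      by_contra h4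
      exact hx fun _ => h4
    show x ∈ T
    rw [LinearMap.mem_ker, LinearMap.sub_apply, LinearMap.proj_apply, LinearMap.proj_apply, h3,
      sub_self]

theorem meas_sm (l : ℕ) : MeasurableSet {x : Fin l → ℝ | StrictMono x} := by
  have h : {x : Fin l → ℝ | StrictMono x} =
      ⋂ i : Fin l, ⋂ j : Fin l, ⋂ _ : i < j, {x : Fin l → ℝ | x i < x j} := by
    ext x
    simp only [Set.mem_setOf_eq, Set.mem_iInter]
    exact Iff.rfl
  rw [h]
  exact MeasurableSet.iInter fun i => MeasurableSet.iInter fun j => MeasurableSet.iInter fun _ =>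
    measurableSet_lt (measurable_pi_apply i) (measurable_pi_apply j)

theorem t_ETL : S_RIE → S_ETB → S_ETL := by
  intro hR hB P lam phi hM S l u
  by_cases hu : FrontInj u
  swap
  · have h1 : mom lam phi u = 0 := by
      unfold mom
      rw [if_neg hu]
    have h2 : ∀ n, ET P S n u = 0 := by
      intro n
      unfold ET
      refine Finset.sum_eq_zero fun π _ => ?_
      rw [occ_empty π u hu, Set.ncard_empty, Nat.cast_zero, mul_zero]
    rw [h1]
    simp only [h2]
    exact tendsto_const_nhds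
  obtain ⟨C, hC1, hC⟩ := hM.bound
  obtain ⟨e1, -, e3⟩ := hB P C hC1 hM.nonneg hC
  let f : ℕ → (Fin l → ℤ) → ℝ := fun n a =>
    if StrictMono a ∧ ∀ i, (2 * S : ℤ) < a i then
      (n : ℝ) ^ l * pr (P n) {π | ∀ i, LabP π (u i) (a i)} else 0
  let g : (Fin l → ℝ) → ℝ := {x : Fin l → ℝ | StrictMono x}.indicator
    fun x => ∏ i, rho lam phi (u i) (x i)
  have hmc : MeasurableSet {x : Fin l → ℝ | ∀ i, x i ∈ Ioo (0 : ℝ) 1} := by
    have h : {x : Fin l → ℝ | ∀ i, x i ∈ Ioo (0 : ℝ) 1} =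
        Set.pi Set.univ fun _ => Ioo (0 : ℝ) 1 := by
      ext x
      simp
    rw [h]
    exact MeasurableSet.univ_pi fun _ => measurableSet_Ioo
  have key := hR l f ((2 * C) ^ l) g ?_ ?_
  · have h1 : ∫ x in {x : Fin l → ℝ | ∀ i, x i ∈ Ioo (0 : ℝ) 1}, g x = mom lam phi u := by
      unfold mom
      rw [if_pos hu, setIntegral_indicator (meas_sm l)]
      congr 2
      ext x
      exact and_comm
    rw [h1] at key
    refine key.congr' ?_
    filter_upwards [eventually_gt_atTop 0] with n hn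
    have hn0 : (n : ℝ) ^ l ≠ 0 := pow_ne_zero _ (by exact_mod_cast hn.ne')
    rw [e3 S n l u, div_eq_iff hn0, Finset.sum_mul]
    refine Finset.sum_congr rfl fun a _ => ?_
    have h2 : (StrictMono (fun i => ((a i : ℕ) : ℤ)) ∧ ∀ i, (2 * S : ℤ) < ((a i : ℕ) : ℤ)) ↔
        (StrictMono a ∧ ∀ i, 2 * S < (a i).val) := by
      refine and_congr ⟨fun h i j hij => ?_, fun h i j hij => ?_⟩ (forall_congr' fun i => ?_)
      · have h4 : ((a i : ℕ) : ℤ) < ((a j : ℕ) : ℤ) := h hij
        have h3 : (a i : ℕ) < a j := by exact_mod_cast h4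
        exact h3
      · have h3 : (a i : ℕ) < a j := h hij
        show ((a i : ℕ) : ℤ) < ((a j : ℕ) : ℤ)
        exact_mod_cast h3
      · constructor
        · intro h
          exact_mod_cast h
        · intro h
          exact_mod_cast h
    show (if StrictMono (fun i => ((a i : ℕ) : ℤ)) ∧ ∀ i, (2 * S : ℤ) < ((a i : ℕ) : ℤ) then
      (n : ℝ) ^ l * pr (P n) {π | ∀ i, LabP π (u i) ((a i : ℕ) : ℤ)} else 0) = _
    by_cases h3 : StrictMono a ∧ ∀ i, 2 * S < (a i).val
    · rw [if_pos h3, if_pos (h2.2 h3), mul_comm]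
    · rw [if_neg h3, if_neg (fun h => h3 (h2.1 h)), zero_mul]
  · filter_upwards [eventually_ge_atTop (2 * l)] with n hn a
    show |if StrictMono a ∧ ∀ i, (2 * S : ℤ) < a i then
      (n : ℝ) ^ l * pr (P n) {π | ∀ i, LabP π (u i) (a i)} else 0| ≤ _
    have hC0 : (0 : ℝ) ≤ (2 * C) ^ l := by positivity
    split_ifs with h
    · have h1 := e1 n l u a h.1.injective
      have h2 := pr_nonneg (hM.nonneg n) {π | ∀ i, LabP π (u i) (a i)}
      have h3 : (0 : ℝ) < (n.descFactorial l : ℝ) := by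
        have : 0 < n.descFactorial l := by
          rw [Nat.pos_iff_ne_zero, Ne, Nat.descFactorial_eq_zero_iff_lt]
          omega
        exact_mod_cast this
      rw [abs_of_nonneg (by positivity)]
      calc (n : ℝ) ^ l * pr (P n) {π | ∀ i, LabP π (u i) (a i)}
          ≤ (2 ^ l * (n.descFactorial l : ℝ)) * (C ^ l / (n.descFactorial l : ℝ)) :=
            mul_le_mul (desc_bound hn) h1 h2 (by positivity)
        _ = (2 * C) ^ l := by
            rw [mul_pow]
            field_simp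
    · rw [abs_zero]
      exact hC0
  · filter_upwards [ae_restrict_of_ae (ae_inj l), ae_restrict_mem hmc] with x hx hxc
    show Tendsto (fun n : ℕ => if StrictMono (fun i => ⌊(n : ℝ) * x i⌋) ∧
      ∀ i, (2 * S : ℤ) < ⌊(n : ℝ) * x i⌋ then
      (n : ℝ) ^ l * pr (P n) {π | ∀ i, LabP π (u i) ⌊(n : ℝ) * x i⌋} else 0) atTop (𝓝 (g x))
    by_cases hs : StrictMono x
    · have h1 : g x = ∏ i, rho lam phi (u i) (x i) := Set.indicator_of_mem hs _
      rw [h1]
      refine (hM.lim l u hu x hs hxc).congr' ?_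
      have h2 : ∀ᶠ n : ℕ in atTop, ∀ i j : Fin l, i < j → ⌊(n : ℝ) * x i⌋ < ⌊(n : ℝ) * x j⌋ := by
        rw [eventually_all]
        intro i
        rw [eventually_all]
        intro j
        by_cases hij : i < j
        · filter_upwards [floor_lt (hs hij)] with n hn _
          exact hn
        · exact Eventually.of_forall fun n h => absurd h hij
      have h3 : ∀ᶠ n : ℕ in atTop, ∀ i : Fin l, (2 * S : ℤ) < ⌊(n : ℝ) * x i⌋ := by
        rw [eventually_all]
        intro i
        exact floor_gt (hxc i).1 S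
      filter_upwards [h2, h3] with n hn2 hn3
      rw [if_pos ⟨fun i j hij => hn2 i j hij, hn3⟩]
    · have h1 : g x = 0 := Set.indicator_of_notMem hs _
      rw [h1]
      obtain ⟨i, j, hij, hxij⟩ : ∃ i j : Fin l, i < j ∧ x j < x i := by
        by_contra hcon
        push Not at hcon
        exact hs fun i j hij => lt_of_le_of_ne (hcon i j hij) (hx i j hij.ne)
      refine Tendsto.congr' ?_ tendsto_const_nhds
      filter_upwards [floor_lt hxij] with n hn
      rw [if_neg]
      rintro ⟨h2, -⟩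
      have := h2 hij
      beta_reduce at this
      omega

end Pool.Agent.K3h73.FF
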