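import Pool.Agent.K3h5.FF.Stm

/-! Inversion formula for the numbers of occurrences (brick INV). -/

set_option autoImplicit false
set_option linter.all false

open scoped Classical

namespace Pool.Agent.K3h73.FF

open Pool.Agent.K3h5.FF

section core

variable {α β : Type} [Fintype α] [LinearOrder α] [Fintype β]

theorem count_sub {l m : ℕ} (c : α → β) (w : Fin m → β) (z : Fin l → α) (hz : StrictMono z) :
    (Finset.univ.filter fun f : Fin m → Fin l => StrictMono f ∧ ∀ i, c (z (f i)) = w i).card =
    (Finset.univ.filter fun t : Fin m → α => (StrictMono t ∧ ∀ i, c (t i) = w i) ∧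
      Finset.univ.image t ⊆ Finset.univ.image z).card := by
  refine Finset.card_bij (fun f _ => z ∘ f) ?_ ?_ ?_
  · intro f hf
    rw [Finset.mem_filter] at hf ⊢
    refine ⟨Finset.mem_univ _, ⟨hz.comp hf.2.1, hf.2.2⟩, ?_⟩
    intro x hx
    rw [Finset.mem_image] at hx ⊢
    obtain ⟨i, -, rfl⟩ := hx
    exact ⟨f i, Finset.mem_univ _, rfl⟩
  · intro f _ f' _ h
    funext i
    exact hz.injective (congrFun h i)
  · intro t ht
    rw [Finset.mem_filter] at ht
    obtain ⟨-, ⟨h1, h2⟩, h3⟩ := ht
    have h4 : ∀ i, ∃ j, z j = t i := by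
      intro i
      have := h3 (Finset.mem_image.2 ⟨i, Finset.mem_univ _, rfl⟩)
      obtain ⟨j, -, hj⟩ := Finset.mem_image.1 this
      exact ⟨j, hj⟩
    choose f hf using h4
    refine ⟨f, ?_, funext hf⟩
    rw [Finset.mem_filter]
    refine ⟨Finset.mem_univ _, fun i j hij => ?_, fun i => by rw [hf]; exact h2 i⟩
    rw [← hz.lt_iff_lt, hf, hf]
    exact h1 hij

theorem image_inj {l : ℕ} {z z' : Fin l → α} (hz : StrictMono z) (hz' : StrictMono z')
    (h : Finset.univ.image z = Finset.univ.image z') : z = z' := by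
  have h1 : Set.range z = Set.range z' := by
    have := congrArg (fun s : Finset α => (s : Set α)) h
    simpa using this
  exact (StrictMono.range_inj hz hz').1 h1

theorem sum_sm (l : ℕ) (g : Finset α → ℝ) :
    ∑ z ∈ Finset.univ.filter (fun z : Fin l → α => StrictMono z), g (Finset.univ.image z) =
      ∑ Z ∈ Finset.powersetCard l Finset.univ, g Z := by
  refine Finset.sum_bij (fun z _ => Finset.univ.image z) ?_ ?_ ?_ ?_
  · intro z hz
    rw [Finset.mem_filter] at hz
    rw [Finset.mem_powersetCard]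
    exact ⟨Finset.subset_univ _, by
      rw [Finset.card_image_of_injective _ hz.2.injective, Finset.card_univ, Fintype.card_fin]⟩
  · intro z hz z' hz' h
    rw [Finset.mem_filter] at hz hz'
    exact image_inj hz.2 hz'.2 h
  · intro Z hZ
    rw [Finset.mem_powersetCard] at hZ
    refine ⟨Z.orderEmbOfFin hZ.2, ?_, ?_⟩
    · rw [Finset.mem_filter]
      exact ⟨Finset.mem_univ _, (Z.orderEmbOfFin hZ.2).strictMono⟩
    · apply Finset.coe_injective
      rw [Finset.coe_image, Finset.coe_univ, Set.image_univ, Finset.range_orderEmbOfFin]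
  · intro z _
    rfl

theorem sum_int (T : Finset α) :
    ∑ Z ∈ (Finset.univ : Finset α).powerset, (if T ⊆ Z then (-1 : ℝ) ^ (Z.card + T.card) else 0) =
      if T = Finset.univ then 1 else 0 := by
  rw [← Finset.sum_filter]
  have h1 : ((Finset.univ : Finset α).powerset.filter (fun Z => T ⊆ Z)) =
      (Finset.univ \ T).powerset.image (fun Y => T ∪ Y) := by
    ext Z
    rw [Finset.mem_filter, Finset.mem_image]
    constructor
    · rintro ⟨-, h⟩
      refine ⟨Z \ T, ?_, Finset.union_sdiff_of_subset h⟩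
      rw [Finset.mem_powerset]
      exact Finset.sdiff_subset_sdiff (Finset.subset_univ _) (Finset.Subset.refl _)
    · rintro ⟨Y, -, rfl⟩
      exact ⟨Finset.mem_powerset.2 (Finset.subset_univ _), Finset.subset_union_left⟩
  have hd : ∀ Y ∈ (Finset.univ \ T).powerset, Disjoint T Y := by
    intro Y hY
    rw [Finset.mem_powerset] at hY
    exact (Finset.disjoint_sdiff (s := T) (t := Finset.univ)).mono_right hY
  rw [h1, Finset.sum_image]
  · have h2 : ∀ Y ∈ (Finset.univ \ T).powerset, (-1 : ℝ) ^ ((T ∪ Y).card + T.card) =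
        (((-1 : ℤ) ^ Y.card : ℤ) : ℝ) := by
      intro Y hY
      rw [Finset.card_union_of_disjoint (hd Y hY)]
      have h3 : T.card + Y.card + T.card = 2 * T.card + Y.card := by ring
      rw [h3, pow_add, pow_mul]
      norm_num
    rw [Finset.sum_congr rfl h2, ← Int.cast_sum, Finset.sum_powerset_neg_one_pow_card]
    have h4 : (Finset.univ \ T = ∅) ↔ T = Finset.univ := by
      rw [Finset.sdiff_eq_empty_iff_subset, Finset.univ_subset_iff]
    by_cases h5 : T = Finset.univ
    · rw [if_pos h5, if_pos (h4.2 h5)]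
      norm_num
    · rw [if_neg h5, if_neg (fun h => h5 (h4.1 h))]
      norm_num
  · intro Y hY Y' hY' h
    have h1 := hd Y hY
    have h2 := hd Y' hY'
    have h3 : T ∪ Y = T ∪ Y' := h
    have h4 : (T ∪ Y) \ T = (T ∪ Y') \ T := by rw [h3]
    rwa [Finset.union_sdiff_cancel_left h1, Finset.union_sdiff_cancel_left h2] at h4

theorem core {m : ℕ} (c : α → β) (w : Fin m → β) :
    ∑ l ∈ Finset.range (Fintype.card α + 1), ∑ u : Fin l → β, (-1 : ℝ) ^ (l + m) *
      ((Finset.univ.filter fun z : Fin l → α => StrictMono z ∧ ∀ i, c (z i) = u i).card : ℝ) *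
      ((Finset.univ.filter fun f : Fin m → Fin l => StrictMono f ∧ ∀ i, u (f i) = w i).card : ℝ) =
    ((Finset.univ.filter fun t : Fin m → α => (StrictMono t ∧ ∀ i, c (t i) = w i) ∧
      Finset.univ.image t = Finset.univ).card : ℝ) := by
  have key : ∀ l : ℕ, ∑ u : Fin l → β, (-1 : ℝ) ^ (l + m) *
      ((Finset.univ.filter fun z : Fin l → α => StrictMono z ∧ ∀ i, c (z i) = u i).card : ℝ) *
      ((Finset.univ.filter fun f : Fin m → Fin l => StrictMono f ∧ ∀ i, u (f i) = w i).card : ℝ) =
      ∑ t ∈ Finset.univ.filter (fun t : Fin m → α => StrictMono t ∧ ∀ i, c (t i) = w i),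
        ∑ Z ∈ Finset.powersetCard l Finset.univ,
          (if Finset.univ.image t ⊆ Z then (-1 : ℝ) ^ (Z.card + (Finset.univ.image t).card)
            else 0) := by
    intro l
    have h1 : ∀ u : Fin l → β, (-1 : ℝ) ^ (l + m) *
        ((Finset.univ.filter fun z : Fin l → α => StrictMono z ∧ ∀ i, c (z i) = u i).card : ℝ) *
        ((Finset.univ.filter fun f : Fin m → Fin l => StrictMono f ∧ ∀ i, u (f i) = w i).card : ℝ) =
        ∑ z ∈ Finset.univ.filter (fun z : Fin l → α => StrictMono z),
          if (fun i => c (z i)) = u then (-1 : ℝ) ^ (l + m) *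
            ((Finset.univ.filter fun f : Fin m → Fin l => StrictMono f ∧
              ∀ i, u (f i) = w i).card : ℝ) else 0 := by
      intro u
      rw [← Finset.sum_filter, Finset.sum_const, nsmul_eq_mul, Finset.filter_filter]
      have h2 : (Finset.univ.filter fun z : Fin l → α => StrictMono z ∧ ∀ i, c (z i) = u i) =
          Finset.univ.filter fun z : Fin l → α => StrictMono z ∧ (fun i => c (z i)) = u := by
        apply Finset.filter_congr
        intro z _
        rw [funext_iff]
      rw [h2]
      ring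
    rw [Finset.sum_congr rfl fun u _ => h1 u, Finset.sum_comm]
    have h3 : ∀ z ∈ Finset.univ.filter (fun z : Fin l → α => StrictMono z),
        (∑ u : Fin l → β, if (fun i => c (z i)) = u then (-1 : ℝ) ^ (l + m) *
            ((Finset.univ.filter fun f : Fin m → Fin l => StrictMono f ∧
              ∀ i, u (f i) = w i).card : ℝ) else 0) =
        ∑ t ∈ Finset.univ.filter (fun t : Fin m → α => StrictMono t ∧ ∀ i, c (t i) = w i),
          (if Finset.univ.image t ⊆ Finset.univ.image z then
            (-1 : ℝ) ^ ((Finset.univ.image z).card + (Finset.univ.image t).card) else 0) := by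
      intro z hz
      rw [Finset.mem_filter] at hz
      rw [Finset.sum_ite_eq, if_pos (Finset.mem_univ _), count_sub c w z hz.2,
        ← Finset.sum_filter, Finset.filter_filter]
      have h4 : ∀ t ∈ Finset.univ.filter (fun t : Fin m → α => (StrictMono t ∧
          ∀ i, c (t i) = w i) ∧ Finset.univ.image t ⊆ Finset.univ.image z),
          (-1 : ℝ) ^ ((Finset.univ.image z).card + (Finset.univ.image t).card) =
            (-1 : ℝ) ^ (l + m) := by
        intro t ht
        rw [Finset.mem_filter] at ht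
        rw [Finset.card_image_of_injective _ hz.2.injective,
          Finset.card_image_of_injective _ ht.2.1.1.injective, Finset.card_univ,
          Finset.card_univ, Fintype.card_fin, Fintype.card_fin]
      rw [Finset.sum_congr rfl h4, Finset.sum_const, nsmul_eq_mul, mul_comm]
    rw [Finset.sum_congr rfl h3, Finset.sum_comm]
    refine Finset.sum_congr rfl fun t _ => ?_
    exact sum_sm l (fun Z => if Finset.univ.image t ⊆ Z then
      (-1 : ℝ) ^ (Z.card + (Finset.univ.image t).card) else 0)
  rw [Finset.sum_congr rfl fun l _ => key l, Finset.sum_comm]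
  have h5 : ∀ t ∈ Finset.univ.filter (fun t : Fin m → α => StrictMono t ∧ ∀ i, c (t i) = w i),
      (∑ l ∈ Finset.range (Fintype.card α + 1), ∑ Z ∈ Finset.powersetCard l Finset.univ,
        (if Finset.univ.image t ⊆ Z then (-1 : ℝ) ^ (Z.card + (Finset.univ.image t).card)
            else 0)) = if Finset.univ.image t = Finset.univ then 1 else 0 := by
    intro t _
    rw [← sum_int, Finset.sum_powerset, Finset.card_univ]
  rw [Finset.sum_congr rfl h5, ← Finset.sum_filter, Finset.filter_filter, Finset.sum_const,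
    nsmul_eq_mul, mul_one]

theorem fc {γ : Type} [Fintype γ] (P : γ → Prop) [DecidablePred P] :
    {x | P x}.ncard = (Finset.univ.filter P).card := by
  rw [← Set.ncard_coe_finset, Finset.coe_filter_univ]

theorem im_univ {m : ℕ} (t : Fin m → α) :
    Finset.univ.image t = Finset.univ ↔ Function.Surjective t := by
  rw [Finset.eq_univ_iff_forall]
  constructor
  · intro h x
    obtain ⟨i, -, hi⟩ := Finset.mem_image.1 (h x)
    exact ⟨i, hi⟩
  · intro h x
    obtain ⟨i, hi⟩ := h x
    exact Finset.mem_image.2 ⟨i, Finset.mem_univ _, hi⟩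

theorem surj_inj {l : ℕ} {z z' : Fin l → α} (hz : StrictMono z) (hz' : StrictMono z')
    (h : Function.Surjective z) (h' : Function.Surjective z') : z = z' :=
  image_inj hz hz' (by rw [(im_univ z).2 h, (im_univ z').2 h'])

theorem core' {m : ℕ} (c : α → β) (w : Fin m → β) :
    ∑ l ∈ Finset.range (Fintype.card α + 1), ∑ u : Fin l → β, (-1 : ℝ) ^ (l + m) *
      ({z : Fin l → α | StrictMono z ∧ ∀ i, c (z i) = u i}.ncard : ℝ) *
      ({f : Fin m → Fin l | StrictMono f ∧ ∀ i, u (f i) = w i}.ncard : ℝ) =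
    ({t : Fin m → α | (StrictMono t ∧ ∀ i, c (t i) = w i) ∧ Function.Surjective t}.ncard : ℝ) := by
  have h := core c w
  simp only [fc]
  rw [h]
  congr 2
  apply Finset.filter_congr
  intro t _
  exact and_congr Iff.rfl (im_univ t)

end core

theorem t_INV : S_INV := by
  intro M _ S L hfin huniq
  obtain ⟨A, hA⟩ : ∃ A : Finset M, ∀ x, x ∈ A ↔ ∃ l ∈ Win S, L l x :=
    ⟨hfin.toFinset, fun x => by rw [Set.Finite.mem_toFinset]; rfl⟩
  have hlab : ∀ x : {x // x ∈ A}, ∃ l : {y : Label // y ∈ Win S}, L l x := by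
    intro x
    obtain ⟨l, h1, h2⟩ := (hA x).1 x.2
    exact ⟨⟨l, h1⟩, h2⟩
  choose c hc using hlab
  have hc' : ∀ (l : Label) (hl : l ∈ Win S) (x : M), L l x →
      ∃ a : {x // x ∈ A}, (a : M) = x ∧ c a = ⟨l, hl⟩ := by
    intro l hl x hx
    have h1 : x ∈ A := (hA x).2 ⟨l, hl, hx⟩
    exact ⟨⟨x, h1⟩, rfl, Subtype.ext (huniq _ (c ⟨x, h1⟩).2 _ hl x (hc ⟨x, h1⟩) hx)⟩
  have hocc : ∀ (l : ℕ) (u : Wd S l), occ L (wd u) =
      (fun (z : Fin l → {x // x ∈ A}) (i : Fin l) => (z i : M)) ''
        {z | StrictMono z ∧ ∀ i, c (z i) = u i} := by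
    intro l u
    ext z
    constructor
    · rintro ⟨h1, h2⟩
      choose z' hz1 hz2 using fun i => hc' _ (u i).2 (z i) (h2 i)
      refine ⟨z', ⟨fun i j hij => ?_, hz2⟩, funext hz1⟩
      show (z' i : M) < z' j
      rw [hz1, hz1]
      exact h1 hij
    · rintro ⟨z', ⟨h1, h2⟩, rfl⟩
      refine ⟨fun i j hij => h1 hij, fun i => ?_⟩
      have h3 := hc (z' i)
      rw [h2] at h3
      exact h3
  have hinj : ∀ l : ℕ, Function.Injective
      (fun (z : Fin l → {x // x ∈ A}) (i : Fin l) => (z i : M)) := by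
    intro l z z' h
    funext i
    exact Subtype.ext (congrFun h i)
  have hcard : ∀ (l : ℕ) (u : Wd S l), (occ L (wd u)).ncard =
      {z : Fin l → {x // x ∈ A} | StrictMono z ∧ ∀ i, c (z i) = u i}.ncard := by
    intro l u
    rw [hocc, Set.ncard_image_of_injective _ (hinj l)]
  have hsubs : ∀ (l m : ℕ) (u : Wd S l) (w : Wd S m), subs (wd u) (wd w) =
      {f : Fin m → Fin l | StrictMono f ∧ ∀ i, u (f i) = w i}.ncard := by
    intro l m u w
    have h1 : {f : Fin m → Fin l | StrictMono f ∧ ∀ i, u (f i) = w i} =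
        {f : Fin m → Fin l | StrictMono f ∧ ∀ i, wd u (f i) = wd w i} := by
      ext f
      refine and_congr Iff.rfl (forall_congr' fun i => ?_)
      exact Subtype.ext_iff
    rw [h1]
    unfold subs
    exact (@fc _ _ _ _).symm
  have hword : ∀ (m : ℕ) (w : Wd S m), IsWord S L (wd w) ↔
      ∃ t : Fin m → {x // x ∈ A}, (StrictMono t ∧ ∀ i, c (t i) = w i) ∧
        Function.Surjective t := by
    intro m w
    constructor
    · rintro ⟨-, z, hz, h⟩
      rw [hocc] at hz
      obtain ⟨t, ht, rfl⟩ := hz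
      refine ⟨t, ht, ?_⟩
      intro x
      obtain ⟨i, h1, -⟩ := h (c x) (c x).2 x (hc x)
      exact ⟨i, Subtype.ext h1⟩
    · rintro ⟨t, ht, h⟩
      refine ⟨fun i => (w i).2, fun i => (t i : M), ?_, ?_⟩
      · rw [hocc]
        exact ⟨t, ht, rfl⟩
      · intro l hl x hx
        obtain ⟨a, h1, h2⟩ := hc' l hl x hx
        obtain ⟨i, hi⟩ := h a
        refine ⟨i, ?_, ?_⟩
        · show (t i : M) = x
          rw [hi, h1]
        · show ((w i : {y : Label // y ∈ Win S}) : Label) = l
          rw [← ht.2 i, hi, h2]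
  have huw : ∀ (m : ℕ) (t t' : Fin m → {x // x ∈ A}), StrictMono t → StrictMono t' →
      Function.Surjective t → Function.Surjective t' → t = t' :=
    fun m t t' h1 h2 h3 h4 => surj_inj h1 h2 h3 h4
  have hm : ∀ (m : ℕ) (t : Fin m → {x // x ∈ A}), StrictMono t →
      Function.Surjective t → m = Fintype.card {x // x ∈ A} := by
    intro m t h1 h2
    have h3 := Fintype.card_of_bijective ⟨h1.injective, h2⟩
    rwa [Fintype.card_fin] at h3
  refine ⟨?_, ?_, ?_, ?_⟩
  · let e : Fin (Fintype.card {x // x ∈ A}) ≃o {x // x ∈ A} := Fintype.orderIsoFinOfCardEq _ rfl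
    refine ⟨Fintype.card {x // x ∈ A}, fun i => c (e i), ?_⟩
    rw [hword]
    exact ⟨e, ⟨e.strictMono, fun i => rfl⟩, e.surjective⟩
  · intro m m' w w' h h'
    rw [hword] at h h'
    obtain ⟨t, ⟨h1, h2⟩, h3⟩ := h
    obtain ⟨t', ⟨h1', h2'⟩, h3'⟩ := h'
    have h4 : m = m' := (hm m t h1 h3).trans (hm m' t' h1' h3').symm
    subst h4
    have h5 := huw m t t' h1 h1' h3 h3'
    subst h5
    have h6 : w = w' := funext fun i => by rw [← h2, ← h2']
    rw [h6]
  · intro l u
    rw [hocc]
    exact (Set.toFinite _).image _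
  · intro m w
    refine ⟨Fintype.card {x // x ∈ A} + 1, ?_, ?_, ?_⟩
    · intro l hl u
      rw [hcard, fc, Finset.card_eq_zero, Finset.filter_eq_empty_iff]
      rintro z - ⟨h1, -⟩
      have h2 := Fintype.card_le_of_injective z h1.injective
      rw [Fintype.card_fin] at h2
      omega
    · intro hw
      have h1 := core' c w
      simp only [hcard, hsubs]
      rw [h1]
      rw [hword] at hw
      obtain ⟨t, ht1, ht2⟩ := hw
      have h2 : {t : Fin m → {x // x ∈ A} | (StrictMono t ∧
          ∀ i, c (t i) = w i) ∧ Function.Surjective t} = {t} := by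
        ext t'
        rw [Set.mem_singleton_iff]
        constructor
        · rintro ⟨h3, h4⟩
          exact huw m t' t h3.1 ht1.1 h4 ht2
        · rintro rfl
          exact ⟨ht1, ht2⟩
      rw [h2, Set.ncard_singleton, Nat.cast_one]
    · intro hw
      have h1 := core' c w
      simp only [hcard, hsubs]
      rw [h1]
      have h2 : {t : Fin m → {x // x ∈ A} | (StrictMono t ∧
          ∀ i, c (t i) = w i) ∧ Function.Surjective t} = ∅ := by
        rw [Set.eq_empty_iff_forall_notMem]
        intro t' h3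
        exact hw ((hword m w).2 ⟨t', h3⟩)
      rw [h2, Set.ncard_empty, Nat.cast_zero]

end Pool.Agent.K3h73.FF
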